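import Pool.Agent.TH37.SD.Base
import Pool.Agent.TH480.SD_A2
import Pool.Agent.TH443.SD_B1
import Pool.Agent.TH938.SD_HAT
import Pool.Agent.TH979.SD_B3
import Pool.Agent.TH113.SD_EXTH
import Pool.Agent.TH367.SD_FP
import Pool.Agent.TH626.SD_C2
import Pool.Agent.TH521.SD_ISO
import Pool.Agent.TH111.SD_D0
import Pool.Agent.TH914.SD_D3

/-!
# MP_41f637_al: the uniform embedding (assembly, helper37)
-/

set_option autoImplicit false

namespace Pool.Agent.TH37.SD

/-- the uniform embedding into groups generated by four elements -/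
theorem el_of_step (hS : StepFStmt) : ELStmt := by
  have hcore : CoreStmt := Pool.Agent.TH979.SDB3.core (bq hS)
    Pool.Agent.TH938.SDHAT.hat
  have hext : ExtHStmt := Pool.Agent.TH113.SD_EXTH.extH hcore Pool.Agent.TH443.SDB1.hconj
  have hbase : BaseStmt := base (Pool.Agent.TH367.fp hcore) Pool.Agent.TH626.SDKx.kx
    Pool.Agent.TH521.SD.iso Pool.Agent.TH111.SDD0.cyc
  exact Pool.Agent.TH914.SDD3.el hbase hext

end Pool.Agent.TH37.SD
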