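import Pool.Agent.TH37.SD.Stmts2

/-!
# MP_41f637_al: the word is trivial when `x` lies in the subgroup generated by the `y i` (helper37)
-/

set_option autoImplicit false

namespace Pool.Agent.TH37.SD.E1

open Multiplicative

variable {C : Type} [Group C] {z : C} {ζ : ℂ}

theorem tw_mul (hz : ∀ a : C, a * z = z * a) {g h : WR C} (hg : Tw z ζ g) (hh : Tw z ζ h) :
    Tw z ζ (g * h) := by
  intro x
  have e : g.right⁻¹ * (z * x) = z * (g.right⁻¹ * x) := by
    rw [← mul_assoc, hz, mul_assoc]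
  show toAdd (g.left (z * x) * h.left (g.right⁻¹ * (z * x))) =
    ζ * toAdd (g.left x * h.left (g.right⁻¹ * x))
  rw [e, toAdd_mul, toAdd_mul, hg, hh]
  ring

theorem tw_one : Tw z ζ (1 : WR C) := by
  intro x
  show (0 : ℂ) = ζ * 0
  ring

theorem tw_inv (hz : ∀ a : C, a * z = z * a) {g : WR C} (hg : Tw z ζ g) : Tw z ζ g⁻¹ := by
  intro x
  have e : g.right * (z * x) = z * (g.right * x) := by
    rw [← mul_assoc, hz, mul_assoc]
  show toAdd (g.left (g.right * (z * x)))⁻¹ = ζ * toAdd (g.left (g.right * x))⁻¹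
  rw [e, toAdd_inv, toAdd_inv, hg]
  ring

theorem tw_pow (hz : ∀ a : C, a * z = z * a) {g : WR C} (hg : Tw z ζ g) (n : ℕ) :
    Tw z ζ (g ^ n) := by
  induction n with
  | zero => rw [pow_zero]; exact tw_one
  | succ n ih => rw [pow_succ]; exact tw_mul hz ih hg

/-- conjugation of an element of the base group -/
theorem conj_left {g m : WR C} (hm : m.right = 1) (c : C) :
    (g * m * g⁻¹).left c = m.left (g.right⁻¹ * c) := by
  have e : (g * m).right = g.right := by
    rw [RegularWreathProduct.mul_right, hm, mul_one]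
  show (g.left c * m.left (g.right⁻¹ * c)) * (g.left (g.right * ((g * m).right⁻¹ * c)))⁻¹ = _
  rw [e, mul_inv_cancel_left, mul_comm (g.left c), mul_inv_cancel_right]

theorem conj_right {g m : WR C} (hm : m.right = 1) : (g * m * g⁻¹).right = 1 := by
  simp [hm]

theorem tw_zpow {m : WR C} (h0 : ζ ≠ 0) (hm : Tw z ζ m) (k : ℤ) (x : C) :
    toAdd (m.left (z ^ k * x)) = ζ ^ k * toAdd (m.left x) := by
  have hn : ∀ (n : ℕ) (x : C), toAdd (m.left (z ^ n * x)) = ζ ^ n * toAdd (m.left x) := by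
    intro n
    induction n with
    | zero => intro x; simp
    | succ n ih =>
      intro x
      rw [pow_succ, mul_assoc, ih, hm, pow_succ]
      ring
  rcases Int.eq_nat_or_neg k with ⟨n, rfl | rfl⟩
  · rw [zpow_natCast, zpow_natCast]
    exact hn n x
  · have := hn n (z ^ (-(n : ℤ)) * x)
    rw [← mul_assoc, zpow_neg, zpow_natCast, mul_inv_cancel, one_mul] at this
    rw [zpow_neg, zpow_neg, zpow_natCast, zpow_natCast, this, ← mul_assoc,
      inv_mul_cancel₀ (pow_ne_zero n h0), one_mul]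

theorem prod_left (l : List (WR C)) (hl : ∀ m ∈ l, m.right = 1) :
    l.prod.right = 1 ∧ ∀ c, toAdd (l.prod.left c) = (l.map fun m => toAdd (m.left c)).sum := by
  induction l with
  | nil => exact ⟨rfl, fun c => rfl⟩
  | cons a l ih =>
    obtain ⟨h1, h2⟩ := ih (fun m hm => hl m (List.mem_cons_of_mem _ hm))
    have ha := hl a (List.mem_cons_self)
    constructor
    · rw [List.prod_cons, RegularWreathProduct.mul_right, ha, h1, one_mul]
    · intro c
      rw [List.prod_cons, List.map_cons, List.sum_cons, ← h2]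
      show toAdd (a.left c * l.prod.left (a.right⁻¹ * c)) = _
      rw [ha, inv_one, one_mul, toAdd_mul]

/-- the effect of `nrm` -/
theorem nrm_spec (hz : ∀ a : C, a * z = z * a) (h0 : ζ ≠ 0) (p : ℕ) {y m : WR C}
    (hmt : Tw z ζ m) (hm : m.right = 1) (k : ℤ) (hk : (y ^ p).right = z ^ k) :
    (nrm p y m).right = 1 ∧ ∀ c, toAdd ((nrm p y m).left c) =
      (∑ i ∈ Finset.range p, (ζ ^ (-k)) ^ i) * toAdd (m.left c) := by
  unfold nrm
  obtain ⟨h1, h2⟩ := prod_left ((List.range p).map fun i => (y ^ p) ^ i * m * ((y ^ p) ^ i)⁻¹)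
    (by
      intro a ha
      obtain ⟨i, -, rfl⟩ := List.mem_map.1 ha
      exact conj_right hm)
  refine ⟨h1, fun c => ?_⟩
  rw [h2, List.map_map, Finset.sum_mul]
  have hs : ∑ i ∈ Finset.range p, (ζ ^ (-k)) ^ i * toAdd (m.left c) =
      ((List.range p).map fun i => (ζ ^ (-k)) ^ i * toAdd (m.left c)).sum := rfl
  rw [hs]
  congr 1
  apply List.map_congr_left
  intro i _
  show toAdd (((y ^ p) ^ i * m * ((y ^ p) ^ i)⁻¹).left c) = _
  rw [conj_left hm]
  have e1 : ((y ^ p) ^ i).right = (z ^ k) ^ i := by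
    have : ((y ^ p) ^ i).right = ((y ^ p).right) ^ i :=
      map_pow (RegularWreathProduct.rightHom : WR C →* C) (y ^ p) i
    rw [this, hk]
  have e2 : (((y ^ p) ^ i).right)⁻¹ = z ^ (-(k * (i : ℤ))) := by
    rw [e1, ← zpow_natCast, ← zpow_mul, zpow_neg]
  rw [e2, tw_zpow h0 hmt]
  congr 1
  rw [← zpow_natCast, ← zpow_mul]
  congr 1
  ring

theorem right_pow (g : WR C) (n : ℕ) : (g ^ n).right = g.right ^ n :=
  map_pow (RegularWreathProduct.rightHom : WR C →* C) g n

theorem ext1 {m : WR C} (h1 : m.right = 1) (h2 : ∀ c, toAdd (m.left c) = 0) : m = 1 := by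
  apply RegularWreathProduct.ext
  · funext c
    exact toAdd.injective (h2 c)
  · exact h1

theorem comm1 {a b : WR C} (ha : a.right = 1) (hb : b.right = 1) : a * b = b * a := by
  apply RegularWreathProduct.ext
  · funext c
    show a.left c * b.left (a.right⁻¹ * c) = b.left c * a.left (b.right⁻¹ * c)
    rw [ha, hb, inv_one, one_mul, mul_comm]
  · rw [RegularWreathProduct.mul_right, RegularWreathProduct.mul_right, ha, hb]

end Pool.Agent.TH37.SD.E1

namespace Pool.Agent.TH37.SD

open Multiplicative E1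

theorem noSol : NoSolStmt := by
  intro p hp hp3 ζ hζ C _ z hat y x u hy hu hx
  have h0 : ζ ≠ 0 := hζ.ne_zero hp.ne_zero
  have hz := hat.cen
  -- the p-th powers in `C`
  have hpz : ∀ c : C, ∃ k : ℤ, c ^ p = z ^ k := by
    intro c
    by_cases h : c ∈ Subgroup.zpowers z
    · obtain ⟨j, hj⟩ := h
      have hj' : z ^ j = c := hj
      refine ⟨0, ?_⟩
      rw [← hj', ← zpow_natCast, ← zpow_mul, mul_comm, zpow_mul, zpow_natCast, hat.zp, one_zpow,
        zpow_zero]
    · obtain ⟨k, hk, -⟩ := hat.pw c h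
      exact ⟨k, hk⟩
  -- the elements of the module
  let M : Set (WR C) := {m | Tw z ζ m ∧ m.right = 1}
  have hM : ∀ (v m : WR C), Tw z ζ v → m ∈ M → nrm p v m ∈ M := by
    intro v m hv hm
    obtain ⟨k, hk⟩ := hpz v.right
    obtain ⟨h1, h2⟩ := nrm_spec hz h0 p (y := v) hm.1 hm.2 k (by rw [right_pow, hk])
    refine ⟨fun c => ?_, h1⟩
    rw [h2, h2, hm.1 c]
    ring
  have hM0 : u ^ (p ^ 2) ∈ M := by
    refine ⟨tw_pow hz hu _, ?_⟩
    obtain ⟨k, hk⟩ := hpz u.right
    rw [right_pow, pow_two, pow_mul, hk, ← zpow_natCast, ← zpow_mul, mul_comm, zpow_mul,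
      zpow_natCast, hat.zp, one_zpow]
  have hone : ∀ v : WR C, nrm p v 1 = 1 := by
    intro v
    unfold nrm
    apply List.prod_eq_one
    intro a ha
    obtain ⟨i, -, rfl⟩ := List.mem_map.1 ha
    rw [mul_one, mul_inv_cancel]
  have hkill : ∀ (v m : WR C), v.right ∉ Subgroup.zpowers z → m ∈ M → nrm p v m = 1 := by
    intro v m hv hm
    obtain ⟨k, hk, hk2⟩ := hat.pw v.right hv
    obtain ⟨h1, h2⟩ := nrm_spec hz h0 p (y := v) hm.1 hm.2 k (by rw [right_pow, hk])
    apply ext1 h1
    intro c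
    have hprim : IsPrimitiveRoot (ζ ^ (-k)) p := by
      have hcop : IsCoprime (-k) (p : ℤ) := by
        rw [IsCoprime.neg_left_iff]
        exact ((Nat.prime_iff_prime_int.1 hp).coprime_iff_not_dvd.2 hk2).symm
      exact hζ.zpow_of_gcd_eq_one _ (by
        rw [← Int.isCoprime_iff_gcd_eq_one]
        exact hcop)
    rw [h2, hprim.geom_sum_eq_zero hp.one_lt, zero_mul]
  have hm1 := hM _ _ (hy 0) hM0
  have hm2 := hM _ _ (hy 1) hm1
  have hm3 := hM _ _ (hy 2) hm2
  have hm4 := hM _ _ (hy 3) hm3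
  have hm5 := hM _ _ (hy 4) hm4
  have hfin : ∀ m : WR C, m ∈ M → (m = 1 ∨ x.right ∈ Subgroup.zpowers z) →
      m * x ^ p * m⁻¹ * (x ^ p)⁻¹ = 1 := by
    rintro m hm (rfl | h)
    · simp
    · have h1 : (x ^ p).right = 1 := by
        obtain ⟨j, hj⟩ := h
        have hj' : z ^ j = x.right := hj
        rw [right_pow, ← hj', ← zpow_natCast, ← zpow_mul, mul_comm, zpow_mul, zpow_natCast,
          hat.zp, one_zpow]
      rw [comm1 hm.2 h1]
      group
  unfold wv
  apply hfin _ hm5
  by_cases hall : ∀ i, (y i).right ∈ Subgroup.zpowers z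
  · right
    have hle : Subgroup.closure (Set.range y) ≤
        (Subgroup.zpowers z).comap (RegularWreathProduct.rightHom : WR C →* C) := by
      rw [Subgroup.closure_le]
      rintro _ ⟨i, rfl⟩
      exact hall i
    exact hle hx
  · left
    push Not at hall
    obtain ⟨i, hi⟩ := hall
    fin_cases i
    · rw [hkill (y 0) _ hi hM0, hone, hone, hone, hone]
    · rw [hkill (y 1) _ hi hm1, hone, hone, hone]
    · rw [hkill (y 2) _ hi hm2, hone, hone]
    · rw [hkill (y 3) _ hi hm3, hone]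
    · exact hkill (y 4) _ hi hm4

end Pool.Agent.TH37.SD
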