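import Pool.Agent.TH37.SD.Defs

/-!
# MP_41f637_al: the base group (helper37)
-/

set_option autoImplicit false

namespace Pool.Agent.TH37.SD

open Pool.Agent.TH54.BU

theorem exp_Bs (p s : ℕ) (v : Bs p s) : v ^ p = 1 := by
  obtain ⟨g, rfl⟩ := QuotientGroup.mk_surjective v
  rw [← QuotientGroup.mk_pow, QuotientGroup.eq_one_iff]
  exact Subgroup.subset_normalClosure ⟨g, rfl⟩

theorem powSub_le_ker' {G H : Type} [Group G] [Group H] (f : G →* H) (p : ℕ)
    (h : ∀ x : H, x ^ p = 1) : powSub G p ≤ f.ker := by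
  unfold powSub
  apply Subgroup.normalClosure_le_normal
  rintro _ ⟨g, rfl⟩
  show f (g ^ p) = 1
  rw [map_pow, h]

/-- the homomorphism from the free group of exponent `p` -/
def bl {P : Type} [Group P] (p : ℕ) {s : ℕ} (hP : ∀ g : P, g ^ p = 1) (d : Fin s → P) :
    Bs p s →* P :=
  QuotientGroup.lift (powSub (FreeGroup (Fin s)) p) (FreeGroup.lift d)
    (fun _ hg => powSub_le_ker' (FreeGroup.lift d) p hP hg)

theorem bl_gen {P : Type} [Group P] (p : ℕ) {s : ℕ} (hP : ∀ g : P, g ^ p = 1) (d : Fin s → P)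
    (i : Fin s) : bl p hP d (bgen p i) = d i := by
  show FreeGroup.lift d (FreeGroup.of i) = d i
  simp

theorem bs_ext {P : Type} [Group P] {p s : ℕ} {f g : Bs p s →* P}
    (h : ∀ i, f (bgen p i) = g (bgen p i)) : f = g := by
  apply QuotientGroup.monoidHom_ext
  ext i
  exact h i

theorem ae_at {p : ℕ} {C L : Type} [Group C] [Group L] {π : C →* L} {z : C} (h : AE p π z) :
    AT p z where
  cen := h.cen
  zp := h.zp
  z1 := h.z1
  pw := by
    intro a ha
    apply h.pw
    intro h1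
    apply ha
    rw [← h.ker]
    exact h1

theorem zpow_eq_iff {p : ℕ} (hp : p.Prime) {C : Type} [Group C] {z : C} (hz : z ^ p = 1)
    (hz1 : z ≠ 1) (k l : ℤ) : z ^ k = z ^ l ↔ (k : ZMod p) = (l : ZMod p) := by
  have ho : orderOf z = p := by
    rcases (Nat.dvd_prime hp).1 (orderOf_dvd_of_pow_eq_one hz) with h | h
    · exact absurd (orderOf_eq_one_iff.1 h) hz1
    · exact h
  rw [zpow_eq_zpow_iff_modEq, ho, ZMod.intCast_eq_intCast_iff]

theorem kf_one {p : ℕ} {P : Type} [Group P] {κ : P → ZMod p} (h : KF p κ) : κ 1 = 0 := by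
  have := h.pw 1 1 0
  simpa using this

theorem bgen_ne {p s : ℕ} (hp : p.Prime) {i j : Fin s} (h : i ≠ j) : bgen p i ≠ bgen p j := by
  intro he
  have hz : ∀ x : Multiplicative (ZMod p), x ^ p = 1 := by
    intro x
    apply Multiplicative.toAdd.injective
    show p • Multiplicative.toAdd x = 0
    rw [nsmul_eq_mul, CharP.cast_eq_zero, zero_mul]
  have h1 := congrArg (bl p hz (fun k => if k = i then Multiplicative.ofAdd (1 : ZMod p) else 1)) he
  rw [bl_gen, bl_gen, if_pos rfl, if_neg h.symm] at h1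
  have h2 : (1 : ZMod p) = 0 := h1
  have : Fact (1 < p) := ⟨hp.one_lt⟩
  exact one_ne_zero h2

theorem base (hF : FPStmt) (hK : KxStmt) (hI : IsoStmt) (hCy : CycStmt) : BaseStmt := by
  obtain ⟨p0, hF⟩ := hF
  refine ⟨p0 + 3, fun p hp hpp s C _ z hat c => ?_⟩
  obtain ⟨P, _, j, xP, hexp, hjz, hjk, hup, hk⟩ := hF p hp (by omega) C z hat ((s + 1) + s)
  have hBexp := exp_Bs p s
  have hzn : (Subgroup.zpowers z).Normal := by
    constructor
    rintro _ ⟨k, rfl⟩ g
    refine ⟨k, ?_⟩
    show z ^ k = g * z ^ k * g⁻¹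
    rw [((show Commute g z from hat.cen g).zpow_right k).eq, mul_inv_cancel_right]
  let X : Fin (s + 1) → P := fun i => xP (Fin.castAdd s i)
  let Y : Fin s → P := fun i => xP (Fin.natAdd (s + 1) i)
  have hup' : ∀ (Q : Type) [Group Q], (∀ q : Q, q ^ p = 1) → ∀ f : C →* Q, f z = 1 →
      ∀ (qx : Fin (s + 1) → Q) (qy : Fin s → Q),
      ∃ F : P →* Q, (∀ c, F (j c) = f c) ∧ (∀ i, F (X i) = qx i) ∧ ∀ i, F (Y i) = qy i := by
    intro Q _ hQ f hf qx qy
    obtain ⟨F, h1, h2⟩ := hup Q hQ f hf (Fin.append qx qy)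
    refine ⟨F, h1, fun i => ?_, fun i => ?_⟩
    · show F (xP (Fin.castAdd s i)) = qx i
      rw [h2, Fin.append_left]
    · show F (xP (Fin.natAdd (s + 1) i)) = qy i
      rw [h2, Fin.append_right]
  let d : Fin 4 → Fin s → P := ![fun i => X i.castSucc, fun i => Y i,
    fun i => X i.succ * Y i, fun i => j (c i) * X i.castSucc * Y i]
  let α : Fin 4 → (Bs p s →* P) := fun D => bl p hexp (d D)
  have hα : ∀ D i, α D (bgen p i) = d D i := fun D i => bl_gen p hexp (d D) i
  -- the homomorphisms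
  have hB := fun qx qy => hup' (Bs p s) hBexp 1 rfl qx qy
  obtain ⟨F2, F2c, F2x, F2y⟩ := hB (fun _ => 1) (fun i => bgen p i)
  obtain ⟨F1, F1c, F1x, F1y⟩ := hB (Fin.snoc (fun i => bgen p i) 1) (fun _ => 1)
  obtain ⟨F3, F3c, F3x, F3y⟩ := hB (Fin.cons 1 (fun i => bgen p i)) (fun _ => 1)
  let gg : Fin (s + 1) → Bs p s :=
    fun i => Fin.induction (motive := fun _ => Bs p s) 1 (fun i gi => (bgen p i)⁻¹ * gi) i
  have hgg : ∀ i : Fin s, gg i.succ = (bgen p i)⁻¹ * gg i.castSucc := fun i => rfl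
  obtain ⟨F4, F4c, F4x, F4y⟩ := hB gg (fun i => (gg i.succ)⁻¹)
  have hret : ∀ D : Fin 4, ∃ F : P →* Bs p s, (∀ c, F (j c) = 1) ∧ ∀ v, F (α D v) = v := by
    have key : ∀ (D : Fin 4) (F : P →* Bs p s), (∀ i, F (d D i) = bgen p i) →
        ∀ v, F (α D v) = v := by
      intro D F h v
      have : F.comp (α D) = MonoidHom.id _ := bs_ext fun i => by
        show F (α D (bgen p i)) = bgen p i
        rw [hα, h]
      exact DFunLike.congr_fun this v
    intro D
    fin_cases D
    · refine ⟨F1, F1c, key 0 F1 fun i => ?_⟩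
      show F1 (X i.castSucc) = _
      rw [F1x]
      exact Fin.snoc_castSucc _ _ _
    · exact ⟨F2, F2c, key 1 F2 fun i => F2y i⟩
    · refine ⟨F2, F2c, key 2 F2 fun i => ?_⟩
      show F2 (X i.succ * Y i) = _
      rw [map_mul, F2x, F2y, one_mul]
    · refine ⟨F2, F2c, key 3 F2 fun i => ?_⟩
      show F2 (j (c i) * X i.castSucc * Y i) = _
      rw [map_mul, map_mul, F2x, F2y, F2c]
      simp
  have hsep : ∀ D D' : Fin 4, D < D' → ∃ F : P →* Bs p s, (∀ v, F (α D v) = 1) ∧
      ∀ v, F (α D' v) = v := by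
    have key : ∀ (D D' : Fin 4) (F : P →* Bs p s), (∀ i, F (d D i) = 1) →
        (∀ i, F (d D' i) = bgen p i) → (∀ v, F (α D v) = 1) ∧ ∀ v, F (α D' v) = v := by
      intro D D' F h h' 
      constructor
      · intro v
        have : F.comp (α D) = 1 := bs_ext fun i => by
          show F (α D (bgen p i)) = 1
          rw [hα, h]
        exact DFunLike.congr_fun this v
      · intro v
        have : F.comp (α D') = MonoidHom.id _ := bs_ext fun i => by
          show F (α D' (bgen p i)) = bgen p i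
          rw [hα, h']
        exact DFunLike.congr_fun this v
    have a1 : ∀ i, F2 (d 0 i) = 1 := fun i => F2x _
    have a2 : ∀ i, F2 (d 1 i) = bgen p i := fun i => F2y i
    have a3 : ∀ i, F2 (d 2 i) = bgen p i := by
      intro i
      show F2 (X i.succ * Y i) = _
      rw [map_mul, F2x, F2y, one_mul]
    have a4 : ∀ i, F2 (d 3 i) = bgen p i := by
      intro i
      show F2 (j (c i) * X i.castSucc * Y i) = _
      rw [map_mul, map_mul, F2x, F2y, F2c]
      simp
    have b1 : ∀ i, F3 (d 1 i) = 1 := fun i => F3y i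
    have b2 : ∀ i, F3 (d 2 i) = bgen p i := by
      intro i
      show F3 (X i.succ * Y i) = _
      rw [map_mul, F3x, F3y, Fin.cons_succ, mul_one]
    have c1 : ∀ i, F1 (d 1 i) = 1 := fun i => F1y i
    have c2 : ∀ i, F1 (d 3 i) = bgen p i := by
      intro i
      show F1 (j (c i) * X i.castSucc * Y i) = _
      rw [map_mul, map_mul, F1x, F1y, F1c, MonoidHom.one_apply, one_mul, mul_one]
      exact Fin.snoc_castSucc _ _ _
    have e1 : ∀ i, F4 (d 2 i) = 1 := by
      intro i
      show F4 (X i.succ * Y i) = _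
      rw [map_mul, F4x, F4y, mul_inv_cancel]
    have e2 : ∀ i, F4 (d 3 i) = bgen p i := by
      intro i
      show F4 (j (c i) * X i.castSucc * Y i) = _
      rw [map_mul, map_mul, F4x, F4y, F4c, hgg, MonoidHom.one_apply, one_mul]
      group
    intro D D' hlt
    fin_cases D <;> fin_cases D' <;> first
      | exact absurd hlt (by decide)
      | exact ⟨F2, key 0 1 F2 a1 a2⟩
      | exact ⟨F2, key 0 2 F2 a1 a3⟩
      | exact ⟨F2, key 0 3 F2 a1 a4⟩
      | exact ⟨F3, key 1 2 F3 b1 b2⟩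
      | exact ⟨F1, key 1 3 F1 c1 c2⟩
      | exact ⟨F4, key 2 3 F4 e1 e2⟩
  -- the class function on the free group of exponent `p`
  obtain ⟨κB, hκB, -⟩ := hK p hp (Bs p s) hBexp (fun _ _ => False) (by intros; contradiction)
    (by intros; contradiction)
  have hzk := fun k l : ℤ => zpow_eq_iff hp hat.zp hat.z1 k l
  have hexpC : ∀ c : C, c ^ p ∈ Subgroup.zpowers z := by
    intro c
    by_cases h : c ∈ Subgroup.zpowers z
    · exact Subgroup.pow_mem _ h p
    · obtain ⟨k, hk, -⟩ := hat.pw c h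
      exact ⟨k, hk.symm⟩
  have hQexp : ∀ q : C ⧸ Subgroup.zpowers z, q ^ p = 1 := by
    intro q
    obtain ⟨q, rfl⟩ := QuotientGroup.mk_surjective q
    rw [← QuotientGroup.mk_pow, QuotientGroup.eq_one_iff]
    exact hexpC q
  obtain ⟨FC, FCc, -⟩ := hup (C ⧸ Subgroup.zpowers z) hQexp (QuotientGroup.mk' _)
    ((QuotientGroup.eq_one_iff z).2 (Subgroup.mem_zpowers z)) (fun _ => 1)
  have hconj1 : ∀ {Q : Type} [Group Q] (f : P →* Q) (u g : P) (J : ℤ),
      f (u * g ^ J * u⁻¹) = f u * f g ^ J * (f u)⁻¹ := by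
    intro Q _ f u g J
    rw [map_mul, map_mul, map_zpow, map_inv]
  -- the class function on `P`
  obtain ⟨κ, hκ, hκR⟩ := hK p hp P hexp (fun g a =>
      (∃ (cc : C) (k : ℤ), g = j cc ∧ cc ^ p = z ^ k ∧ a = (k : ZMod p)) ∨
      ∃ (D : Fin 4) (v : Bs p s), g = α D v ∧ a = κB v) (by
    intro g g' u J a b h h' hg hg' he
    rcases h with ⟨c1, k1, rfl, hc1, rfl⟩ | ⟨D, v, rfl, rfl⟩
    · rcases h' with ⟨c2, k2, rfl, hc2, rfl⟩ | ⟨D, v, rfl, rfl⟩
      · have h1 := congrArg FC he
        rw [hconj1, FCc, FCc] at h1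
        obtain ⟨w, hw⟩ := QuotientGroup.mk_surjective (FC u)
        rw [← hw] at h1
        have h2 : ((c2 : C) : C ⧸ Subgroup.zpowers z) =
            ((w * c1 ^ J * w⁻¹ : C) : C ⧸ Subgroup.zpowers z) := h1
        obtain ⟨m, hm⟩ := QuotientGroup.eq.1 h2
        have hm' : z ^ m = c2⁻¹ * (w * c1 ^ J * w⁻¹) := hm
        have h3 : c2 = w * c1 ^ J * w⁻¹ * z ^ (-m) := by
          rw [zpow_neg, hm']
          group
        have hcz : ∀ a : C, Commute a (z ^ (-m)) := fun a =>
          (show Commute a z from hat.cen a).zpow_right _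
        have h4 : c2 ^ p = z ^ (J * k1) := by
          rw [h3, (hcz _).mul_pow, conj_pow, ← zpow_natCast (c1 ^ J), ← zpow_mul, mul_comm J,
            zpow_mul, zpow_natCast, hc1, ← zpow_mul]
          have e1 : (z ^ (-m)) ^ p = 1 := by
            rw [← zpow_natCast, ← zpow_mul, mul_comm, zpow_mul, zpow_natCast, hat.zp, one_zpow]
          rw [e1, mul_one, ((show Commute w z from hat.cen w).zpow_right _).eq, mul_inv_cancel_right,
            mul_comm]
        rw [hc2, hzk] at h4
        rw [h4]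
        push_cast
        ring
      · obtain ⟨F, Fc, Fa⟩ := hret D
        have h1 := congrArg F he
        rw [hconj1, Fa, Fc] at h1
        exfalso
        apply hg'
        rw [h1]
        simp
    · rcases h' with ⟨c2, k2, rfl, hc2, rfl⟩ | ⟨D', v', rfl, rfl⟩
      · obtain ⟨F, Fc, Fa⟩ := hret D
        have h1 := congrArg F he
        rw [hconj1, Fa, Fc] at h1
        have h2 : v ^ J = 1 := by
          have := congrArg (fun q => (F u)⁻¹ * q * F u) h1
          simp only [mul_one, inv_mul_cancel] at this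
          rw [this]
          group
        exfalso
        apply hg'
        rw [he, ← map_zpow, h2]
        simp
      · rcases lt_trichotomy D D' with hlt | rfl | hlt
        · obtain ⟨F, Fk, Fa⟩ := hsep D D' hlt
          have h1 := congrArg F he
          rw [hconj1, Fa, Fk] at h1
          exfalso
          apply hg'
          rw [h1]
          simp
        · obtain ⟨F, Fc, Fa⟩ := hret D
          have h1 := congrArg F he
          rw [hconj1, Fa, Fa] at h1
          rw [h1, hκB.pw]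
        · obtain ⟨F, Fk, Fa⟩ := hsep D' D hlt
          have h1 := congrArg F he
          rw [hconj1, Fa, Fk] at h1
          have h2 : v ^ J = 1 := by
            have := congrArg (fun q => (F u)⁻¹ * q * F u) h1
            simp only [mul_one, inv_mul_cancel] at this
            rw [this]
            group
          exfalso
          apply hg'
          rw [he, ← map_zpow, h2]
          simp) (by
    intro g a h hg
    rcases h with ⟨c1, k1, rfl, hc1, rfl⟩ | ⟨D, v, rfl, rfl⟩
    · have h1 : c1 ∉ Subgroup.zpowers z := by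
        rintro ⟨m, rfl⟩
        apply hg
        show j (z ^ m) = 1
        rw [map_zpow, hjz, one_zpow]
      obtain ⟨k, hk, hk2⟩ := hat.pw c1 h1
      rw [hc1, hzk] at hk
      rw [hk]
      intro h0
      exact hk2 ((ZMod.intCast_zmod_eq_zero_iff_dvd k p).1 h0)
    · intro h0
      apply hg
      rw [hκB.nd v h0, map_one])
  have hPK : PK p j z κ := by
    intro a k ha
    by_cases h : j a = 1
    · obtain ⟨m, hm⟩ := hjk a h
      have hm' : z ^ m = a := hm
      have h1 : z ^ k = z ^ (0 : ℤ) := by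
        rw [← ha, ← hm', ← zpow_natCast, ← zpow_mul, mul_comm, zpow_mul, zpow_natCast, hat.zp,
          one_zpow, zpow_zero]
      rw [hzk] at h1
      rw [h1, h, kf_one hκ]
      simp
    · exact (hκR (j a) k (Or.inl ⟨a, k, rfl, ha, rfl⟩) h).symm
  have hκα : ∀ D v, κ (α D v) = κB v := by
    intro D v
    by_cases h : α D v = 1
    · obtain ⟨F, Fc, Fa⟩ := hret D
      have : v = 1 := by
        have h1 := Fa v
        rw [h, map_one] at h1
        exact h1.symm
      rw [h, this, kf_one hκ, kf_one hκB]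
    · exact hκR _ _ (Or.inr ⟨D, v, rfl, rfl⟩) h
  obtain ⟨C0, _, ι, xh, π, hι, hAE, hπι, hπx, hPK0⟩ := hk κ hκ hPK
  let dh : Fin 4 → Fin s → C0 := ![fun i => xh (Fin.castAdd s i.castSucc),
    fun i => xh (Fin.natAdd (s + 1) i),
    fun i => xh (Fin.castAdd s i.succ) * xh (Fin.natAdd (s + 1) i),
    fun i => ι (c i) * xh (Fin.castAdd s i.castSucc) * xh (Fin.natAdd (s + 1) i)]
  have hdh : ∀ D i, π (dh D i) = α D (bgen p i) := by
    intro D i
    rw [hα]
    fin_cases D
    · exact hπx _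
    · exact hπx _
    · show π (xh (Fin.castAdd s i.succ) * xh (Fin.natAdd (s + 1) i)) = X i.succ * Y i
      rw [map_mul, hπx, hπx]
    · show π (ι (c i) * xh (Fin.castAdd s i.castSucc) * xh (Fin.natAdd (s + 1) i)) =
        j (c i) * X i.castSucc * Y i
      rw [map_mul, map_mul, hπx, hπx, hπι]
  have hαinj : ∀ D, Function.Injective (α D) := by
    intro D v w h
    obtain ⟨F, Fc, Fa⟩ := hret D
    have := congrArg F h
    rwa [Fa, Fa] at this
  have hiso := fun D => hI p hp C0 P π (ι z) hAE κ hPK0 s (α 0) (α D) (hαinj 0) (hαinj D)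
    (fun v => by rw [hκα, hκα]) (dh 0) (dh D) (hdh 0) (hdh D)
  choose ψ hψz hψe using hiso
  have hzS : ∀ D, ι z ∈ (α D).range.comap π := by
    intro D
    have h1 : π (ι z) = 1 := by
      have : ι z ∈ π.ker := by
        rw [hAE.ker]
        exact Subgroup.mem_zpowers _
      exact this
    rw [Subgroup.mem_comap, h1]
    exact Subgroup.one_mem _
  have hne : ∀ a : C0, a ∉ Subgroup.zpowers (ι z) → π a ≠ 1 := by
    intro a ha h
    apply ha
    rw [← hAE.ker]
    exact h
  have hMZ : ∀ D, MZ (ι z) ((α D).range.comap π) := by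
    intro D a ha ha1 g hg
    obtain ⟨v, hv⟩ := ha
    obtain ⟨v', hv'⟩ := hg
    have hv : α D v = π a := hv
    have hv' : α D v' = π (g * a * g⁻¹) := hv'
    obtain ⟨F, Fc, Fa⟩ := hret D
    rw [map_mul, map_mul, map_inv, ← hv] at hv'
    have h1 := congrArg F hv'
    rw [map_mul, map_mul, map_inv, Fa, Fa] at h1
    have h2 := hCy p hp (by omega) C0 P π (ι z) hAE (π a) ((α D (F (π g)))⁻¹ * π g) (by
      rw [← hv]
      have e1 : α D (F (π g)) * α D v * (α D (F (π g)))⁻¹ = π g * α D v * (π g)⁻¹ := by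
        rw [← hv', h1, map_mul, map_mul, map_inv]
      have e2 : α D v = (α D (F (π g)))⁻¹ * (π g * α D v * (π g)⁻¹) * α D (F (π g)) := by
        rw [← e1]
        group
      calc α D v * ((α D (F (π g)))⁻¹ * π g)
          = ((α D (F (π g)))⁻¹ * (π g * α D v * (π g)⁻¹) * α D (F (π g))) *
            ((α D (F (π g)))⁻¹ * π g) := by rw [← e2]
        _ = (α D (F (π g)))⁻¹ * π g * α D v := by group) (hne a ha1)
    obtain ⟨k, hk⟩ := h2
    have hk' : π a ^ k = (α D (F (π g)))⁻¹ * π g := hk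
    show π g ∈ (α D).range
    refine ⟨F (π g) * v ^ k, ?_⟩
    rw [map_mul, map_zpow, hv, hk']
    group
  have hSZ : ∀ D D' : Fin 4, D < D' → SZ (ι z) ((α D).range.comap π) ((α D').range.comap π) := by
    intro D D' hlt a ha ha1 g hg
    obtain ⟨v, hv⟩ := ha
    obtain ⟨v', hv'⟩ := hg
    have hv : α D v = π a := hv
    have hv' : α D' v' = π (g * a * g⁻¹) := hv'
    obtain ⟨F, Fk, Fa⟩ := hsep D D' hlt
    rw [map_mul, map_mul, map_inv, ← hv] at hv'
    have h1 := congrArg F hv'
    rw [map_mul, map_mul, map_inv, Fa, Fk, mul_one, mul_inv_cancel] at h1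
    rw [h1, map_one] at hv'
    apply hne a ha1
    rw [← hv]
    have := congrArg (fun q => (π g)⁻¹ * q * π g) hv'
    simp only [mul_one, inv_mul_cancel] at this
    rw [this]
    group
  have hS0 : ∀ i, dh 0 i ∈ (α 0).range.comap π := by
    intro i
    rw [Subgroup.mem_comap, hdh]
    exact ⟨_, rfl⟩
  refine ⟨C0, inferInstance, ι, fun i => xh (Fin.castAdd s i), fun i => xh (Fin.natAdd (s + 1) i),
    (α 0).range.comap π, (α 1).range.comap π, (α 2).range.comap π, (α 3).range.comap π,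
    ψ 1, ψ 2, ψ 3, hι, ae_at hAE, ⟨hzS 0, hzS 1, hzS 2, hzS 3⟩,
    fun h => ⟨hψz 1 h, hψz 2 h, hψz 3 h⟩, ⟨hMZ 0, hMZ 1, hMZ 2, hMZ 3⟩,
    ⟨hSZ 0 1 (by decide), hSZ 0 2 (by decide), hSZ 0 3 (by decide), hSZ 1 2 (by decide),
      hSZ 1 3 (by decide), hSZ 2 3 (by decide)⟩,
    fun i => ⟨hS0 i, hψe 1 i (hS0 i), hψe 2 i (hS0 i), hψe 3 i (hS0 i)⟩, ?_⟩
  rintro i k hik ⟨cc, hcc⟩
  have h1 := congrArg π hcc
  rw [hπι, map_mul, map_inv, hπx, hπx] at h1
  have h2 := congrArg F1 h1
  have e1 : F1 (xP (Fin.castAdd s k.castSucc)) = bgen p k := by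
    refine (F1x k.castSucc).trans ?_
    exact Fin.snoc_castSucc _ _ _
  have e2 : F1 (xP (Fin.castAdd s i.castSucc)) = bgen p i := by
    refine (F1x i.castSucc).trans ?_
    exact Fin.snoc_castSucc _ _ _
  rw [map_mul, map_inv, e1, e2, F1c, MonoidHom.one_apply] at h2
  exact bgen_ne hp hik (mul_inv_eq_one.1 h2.symm).symm

end Pool.Agent.TH37.SD
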