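import Pool.Agent.TH54.BU.Defs
import Pool.Agent.TH54.BU.BurnDef
import Pool.Agent.TH95.NR.Defs

/-!
# Discrimination and strong discrimination (MP_41f637_al): definitions and statements (helper37)

`p` is a large prime. `AT p z`: `z` is a central element of order `p` of the group `C` and
`a ^ p` is a nontrivial power of `z` for every `a` outside `⟨z⟩`.
-/

set_option autoImplicit false

namespace Pool.Agent.TH37.SD

open Pool.Agent.TH54.BU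

/-- `C` is a central extension of `L` by `⟨z⟩`, `z` of order `p` (prime), and `a ^ p` is a
nontrivial element of `⟨z⟩` for all `a` outside `⟨z⟩` -/
structure AE (p : ℕ) {C L : Type} [Group C] [Group L] (π : C →* L) (z : C) : Prop where
  surj : Function.Surjective π
  ker : π.ker = Subgroup.zpowers z
  cen : ∀ a : C, a * z = z * a
  zp : z ^ p = 1
  z1 : z ≠ 1
  pw : ∀ a : C, π a ≠ 1 → ∃ k : ℤ, a ^ p = z ^ k ∧ ¬ (p : ℤ) ∣ k

/-- the same without naming the quotient -/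
structure AT (p : ℕ) {C : Type} [Group C] (z : C) : Prop where
  cen : ∀ a : C, a * z = z * a
  zp : z ^ p = 1
  z1 : z ≠ 1
  pw : ∀ a : C, a ∉ Subgroup.zpowers z → ∃ k : ℤ, a ^ p = z ^ k ∧ ¬ (p : ℤ) ∣ k

/-- closure properties of a relation which prescribes the admissible exponents `k` with
`a ^ p = z ^ k` for `a` over `g` -/
structure Cls (p : ℕ) {G : Type} [Group G] (E : G → ℤ → Prop) : Prop where
  ex : ∀ g : G, ∃ k, E g k
  pw : ∀ (g u : G) (k j : ℤ), ¬ (p : ℤ) ∣ j → E g k → E (u * g ^ j * u⁻¹) (j * k)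
  md : ∀ (g m : G) (k : ℤ), m ∈ powSub G p → E g k → E (g * m) k

/-- the conclusion of one step, with prescribed exponents and lifting of conjugacy -/
structure StepF {A G : Type} [Group A] [Group G] (φ : A →* G) (z : A) (E : G → ℤ → Prop)
    (p K B T : ℕ) (H : GH G) (N : Subgroup A) (M : Subgroup G) [M.Normal] : Prop where
  map : N.map φ = M
  inj : ∀ a ∈ N, φ a = 1 → a = 1
  le : M ≤ powSub G p
  tz : ∀ a : A, IsOfFinOrder ((φ a : G) : G ⧸ M) → φ a ∉ M →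
    ∃ k : ℤ, a ^ p * z ^ (-k) ∈ N ∧ E (φ a) k
  len : ∃ F : GH (G ⧸ M), F.D = 4 ∧ F.Stab T ∧ F.Acy K B ∧
    ∀ g : G, F.len (g : G ⧸ M) ≤ (H.len g + 1) / 2
  small : ∀ g : G, H.len g ≤ 4 → g ∈ M → g = 1
  kill : ∀ g : G, H.len g ≤ 1 → IsOfFinOrder (g : G ⧸ M)
  lift : ∀ x x' y : G, IsOfFinOrder x' → x' ≠ 1 → H.len x ≤ 1 → H.len x' ≤ 1 →
    y * x * y⁻¹ * x'⁻¹ ∈ M → ∃ m ∈ M, (m * y) * x * (m * y)⁻¹ = x'

def StepFStmt : Prop := ∃ K B T : ℕ, 500 ≤ K ∧ 8 * K + 20 ≤ B ∧ 1 ≤ T ∧ ∃ p0 : ℕ,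
  ∀ p : ℕ, p.Prime → p0 ≤ p → ∀ (A G : Type) [Group A] [Group G] (φ : A →* G),
  Function.Surjective φ → ∀ z : A, (∀ a, a * z = z * a) → z ^ p = 1 →
  φ.ker = Subgroup.zpowers z → ∀ E : G → ℤ → Prop, Cls p E →
  (∀ a : A, IsOfFinOrder (φ a) → φ a ≠ 1 → ∃ k : ℤ, a ^ p = z ^ k ∧ E (φ a) k) →
  ∀ H : GH G, H.D = 4 → H.Stab T → H.Acy K B →
  ∃ (N : Subgroup A) (_ : N.Normal) (M : Subgroup G) (_ : M.Normal),
    StepF φ z E p K B T H N M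

/-- the Burnside quotient of a central extension -/
def BqStmt : Prop := ∃ K B T : ℕ, 500 ≤ K ∧ 8 * K + 20 ≤ B ∧ 1 ≤ T ∧ ∃ p0 : ℕ,
  ∀ p : ℕ, p.Prime → p0 ≤ p → ∀ (A G : Type) [Group A] [Group G] (φ : A →* G),
  Function.Surjective φ → ∀ z : A, (∀ a, a * z = z * a) → z ^ p = 1 →
  φ.ker = Subgroup.zpowers z → ∀ E : G → ℤ → Prop, Cls p E →
  (∀ a : A, IsOfFinOrder (φ a) → φ a ≠ 1 → ∃ k : ℤ, a ^ p = z ^ k ∧ E (φ a) k) →
  ∀ H : GH G, H.D = 4 → H.Stab T → H.Acy K B →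
  ∃ (N : Subgroup A) (_ : N.Normal), N.map φ = powSub G p ∧
    (∀ a ∈ N, φ a = 1 → a = 1) ∧
    (∀ a : A, φ a ∉ powSub G p → ∃ k : ℤ, a ^ p * z ^ (-k) ∈ N ∧ E (φ a) k) ∧
    (∀ g : G, H.len g ≤ 4 → g ∈ powSub G p → g = 1) ∧
    (∀ x x' y : G, IsOfFinOrder x' → x' ≠ 1 → H.len x ≤ 1 → H.len x' ≤ 1 →
      y * x * y⁻¹ * x'⁻¹ ∈ powSub G p →
      ∃ m ∈ powSub G p, (m * y) * x * (m * y)⁻¹ = x')

/-- malnormal -/
def Mal {L : Type} [Group L] (U : Subgroup L) : Prop :=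
  ∀ a ∈ U, a ≠ 1 → ∀ g : L, g * a * g⁻¹ ∈ U → g ∈ U

/-- no nontrivial element of `U` is conjugate to an element of `V` -/
def Sep {L : Type} [Group L] (U V : Subgroup L) : Prop :=
  ∀ a ∈ U, a ≠ 1 → ∀ g : L, g * a * g⁻¹ ∉ V

/-- conjugacy of elements of the base of an HNN extension -/
def HconjStmt : Prop := ∀ (L : Type) [Group L] (U V : Subgroup L) (ψ : U ≃* V),
  Mal U → Mal V → Sep U V → ∀ (x x' : L) (y : HNNExtension L U V ψ), x ≠ 1 →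
  y * HNNExtension.of x * y⁻¹ = HNNExtension.of x' →
  (∃ l : L, y = HNNExtension.of l) ∨
  (∃ l l' : L, l * x * l⁻¹ ∈ U ∧ y = HNNExtension.of l' * HNNExtension.t * HNNExtension.of l) ∨
  (∃ l l' : L, l * x * l⁻¹ ∈ V ∧ y = HNNExtension.of l' * HNNExtension.t⁻¹ * HNNExtension.of l)

/-- the central extension of an HNN extension -/
def HatStmt : Prop := ∀ (C L : Type) [Group C] [Group L] (π : C →* L) (z : C),
  Function.Surjective π → π.ker = Subgroup.zpowers z → (∀ a, a * z = z * a) →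
  ∀ (U V : Subgroup L) (ψ : U ≃* V) (Uh Vh : Subgroup C) (ψh : Uh ≃* Vh)
  (_ : ∀ c, c ∈ Uh ↔ π c ∈ U) (_ : ∀ c, c ∈ Vh ↔ π c ∈ V)
  (_ : ∀ (c : Uh) (h : π (c : C) ∈ U), π (ψh c : C) = (ψ ⟨π (c : C), h⟩ : L))
  (_ : ∀ hz : z ∈ Uh, (ψh ⟨z, hz⟩ : C) = z),
  ∃ φ : HNNExtension C Uh Vh ψh →* HNNExtension L U V ψ,
    (∀ c : C, φ (HNNExtension.of c) = HNNExtension.of (π c)) ∧
    φ HNNExtension.t = HNNExtension.t ∧ Function.Surjective φ ∧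
    φ.ker = Subgroup.zpowers (HNNExtension.of z) ∧
    ∀ a : HNNExtension C Uh Vh ψh, a * HNNExtension.of z = HNNExtension.of z * a

/-- the Burnside quotient of a central extension of an HNN extension -/
def CoreStmt : Prop := ∃ p0 : ℕ, ∀ p : ℕ, p.Prime → p0 ≤ p →
  ∀ (C L : Type) [Group C] [Group L] (π : C →* L) (z : C), AE p π z →
  ∀ (U V : Subgroup L) (ψ : U ≃* V) (Uh Vh : Subgroup C) (ψh : Uh ≃* Vh)
  (_ : ∀ c, c ∈ Uh ↔ π c ∈ U) (_ : ∀ c, c ∈ Vh ↔ π c ∈ V)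
  (_ : ∀ (c : Uh) (h : π (c : C) ∈ U), π (ψh c : C) = (ψ ⟨π (c : C), h⟩ : L))
  (_ : ∀ hz : z ∈ Uh, (ψh ⟨z, hz⟩ : C) = z),
  Mal U → Mal V → Sep U V →
  ∀ E : HNNExtension L U V ψ → ℤ → Prop, Cls p E →
  (∀ c : C, π c ≠ 1 → ∃ k : ℤ, c ^ p = z ^ k ∧ E (HNNExtension.of (π c)) k) →
  ∃ (C' : Type) (_ : Group C')
    (π' : C' →* HNNExtension L U V ψ ⧸ powSub (HNNExtension L U V ψ) p) (ι : C →* C') (t' : C'),
    Function.Surjective π' ∧ π'.ker = Subgroup.zpowers (ι z) ∧ (∀ a, a * ι z = ι z * a) ∧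
    Function.Injective ι ∧
    (∀ c, π' (ι c) = ((HNNExtension.of (π c) : HNNExtension L U V ψ) : _ ⧸ _)) ∧
    π' t' = ((HNNExtension.t : HNNExtension L U V ψ) : _ ⧸ _) ∧
    (∀ c : Uh, t' * ι c * t'⁻¹ = ι (ψh c : C)) ∧
    (∀ c' : C', π' c' ≠ 1 → ∃ (g : HNNExtension L U V ψ) (k : ℤ),
      ((g : HNNExtension L U V ψ) : _ ⧸ powSub (HNNExtension L U V ψ) p) = π' c' ∧
        c' ^ p = ι z ^ k ∧ E g k) ∧
    (∀ l : L, (HNNExtension.of l : HNNExtension L U V ψ) ∈ powSub (HNNExtension L U V ψ) p →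
      l = 1) ∧
    (∀ (x x' : L) (y : HNNExtension L U V ψ), x' ≠ 1 →
      y * HNNExtension.of x * y⁻¹ * (HNNExtension.of x')⁻¹ ∈ powSub (HNNExtension L U V ψ) p →
      ∃ m ∈ powSub (HNNExtension L U V ψ) p,
        (m * y) * HNNExtension.of x * (m * y)⁻¹ = HNNExtension.of x')

/-- malnormal modulo `⟨z⟩` -/
def MZ {C : Type} [Group C] (z : C) (U : Subgroup C) : Prop :=
  ∀ a ∈ U, a ∉ Subgroup.zpowers z → ∀ g : C, g * a * g⁻¹ ∈ U → g ∈ U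

/-- separated modulo `⟨z⟩` -/
def SZ {C : Type} [Group C] (z : C) (U V : Subgroup C) : Prop :=
  ∀ a ∈ U, a ∉ Subgroup.zpowers z → ∀ g : C, g * a * g⁻¹ ∉ V

/-- HNN extension inside the class `AT` -/
def ExtHStmt : Prop := ∃ p0 : ℕ, ∀ p : ℕ, p.Prime → p0 ≤ p →
  ∀ (C : Type) [Group C] (z : C), AT p z → ∀ (U V : Subgroup C) (ψ : U ≃* V)
  (hU : z ∈ U) (_ : z ∈ V), (ψ ⟨z, hU⟩ : C) = z → MZ z U → MZ z V → SZ z U V →
  ∃ (C' : Type) (_ : Group C') (ι : C →* C') (t : C'),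
    Function.Injective ι ∧ AT p (ι z) ∧ (∀ u : U, t * ι u * t⁻¹ = ι (ψ u : C)) ∧
    MZ (ι z) (U.map ι) ∧
    (∀ W : Subgroup C, z ∈ W → MZ z W → SZ z W U → SZ z W V →
      MZ (ι z) (W.map ι) ∧ SZ (ι z) (W.map ι) (U.map ι)) ∧
    (∀ W W' : Subgroup C, z ∈ W → z ∈ W' → SZ z W U → SZ z W V → SZ z W W' →
      SZ (ι z) (W.map ι) (W'.map ι))

/-- homogeneous class functions which vanish only at `1` -/
structure KF (p : ℕ) {P : Type} [Group P] (κ : P → ZMod p) : Prop where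
  pw : ∀ (g u : P) (j : ℤ), κ (u * g ^ j * u⁻¹) = j * κ g
  nd : ∀ g : P, κ g = 0 → g = 1

/-- the `p`-th powers in `C` are given by `κ` -/
def PK (p : ℕ) {C P : Type} [Group C] [Group P] (π : C →* P) (z : C) (κ : P → ZMod p) : Prop :=
  ∀ (a : C) (k : ℤ), a ^ p = z ^ k → (k : ZMod p) = κ (π a)

/-- free products with a free group in the class of groups of exponent `p`, with the central
extensions with prescribed `p`-th powers -/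
def FPStmt : Prop := ∃ p0 : ℕ, ∀ p : ℕ, p.Prime → p0 ≤ p →
  ∀ (C : Type) [Group C] (z : C), AT p z → ∀ n : ℕ,
  ∃ (P : Type) (_ : Group P) (j : C →* P) (x : Fin n → P),
    (∀ g : P, g ^ p = 1) ∧ j z = 1 ∧ (∀ c, j c = 1 → c ∈ Subgroup.zpowers z) ∧
    (∀ (Q : Type) [Group Q], (∀ q : Q, q ^ p = 1) → ∀ f : C →* Q, f z = 1 → ∀ q : Fin n → Q,
      ∃ F : P →* Q, (∀ c, F (j c) = f c) ∧ ∀ i, F (x i) = q i) ∧
    ∀ κ : P → ZMod p, KF p κ → PK p j z κ →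
      ∃ (C0 : Type) (_ : Group C0) (ι : C →* C0) (xh : Fin n → C0) (π : C0 →* P),
        Function.Injective ι ∧ AE p π (ι z) ∧ (∀ c, π (ι c) = j c) ∧ (∀ i, π (xh i) = x i) ∧
        PK p π (ι z) κ

/-- extension of class functions -/
def KxStmt : Prop := ∀ p : ℕ, p.Prime → ∀ (P : Type) [Group P], (∀ g : P, g ^ p = 1) →
  ∀ R : P → ZMod p → Prop,
  (∀ (s s' u : P) (j : ℤ) (a b : ZMod p), R s a → R s' b → s ≠ 1 → s' ≠ 1 →
    s' = u * s ^ j * u⁻¹ → b = j * a) →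
  (∀ (s : P) (a : ZMod p), R s a → s ≠ 1 → a ≠ 0) →
  ∃ κ : P → ZMod p, KF p κ ∧ ∀ (s : P) (a : ZMod p), R s a → s ≠ 1 → κ s = a

/-- the free group of exponent `p` and rank `s` -/
abbrev Bs (p s : ℕ) : Type := FreeGroup (Fin s) ⧸ powSub (FreeGroup (Fin s)) p

/-- the generators of `Bs p s` -/
def bgen (p : ℕ) {s : ℕ} (i : Fin s) : Bs p s := ((FreeGroup.of i : FreeGroup (Fin s)) : Bs p s)

/-- central extensions of free groups of exponent `p` are determined by the `p`-th powers -/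
def IsoStmt : Prop := ∀ p : ℕ, p.Prime → ∀ (C P : Type) [Group C] [Group P] (π : C →* P) (z : C),
  AE p π z → ∀ κ : P → ZMod p, PK p π z κ → ∀ (s : ℕ) (α α' : Bs p s →* P),
  Function.Injective α → Function.Injective α' → (∀ v, κ (α v) = κ (α' v)) →
  ∀ e e' : Fin s → C, (∀ i, π (e i) = α (bgen p i)) → (∀ i, π (e' i) = α' (bgen p i)) →
  ∃ ψ : (α.range.comap π : Subgroup C) ≃* (α'.range.comap π : Subgroup C),
    (∀ h : z ∈ α.range.comap π, (ψ ⟨z, h⟩ : C) = z) ∧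
    ∀ (i : Fin s) (h : e i ∈ α.range.comap π), (ψ ⟨e i, h⟩ : C) = e' i

/-- centralizers are cyclic -/
def CycStmt : Prop := ∀ p : ℕ, p.Prime → 3 ≤ p → ∀ (C P : Type) [Group C] [Group P]
  (π : C →* P) (z : C), AE p π z → ∀ a b : P, a * b = b * a → a ≠ 1 → b ∈ Subgroup.zpowers a

/-- the base group with its four associated subgroups -/
def BaseStmt : Prop := ∃ p0 : ℕ, ∀ p : ℕ, p.Prime → p0 ≤ p → ∀ (s : ℕ) (C : Type) [Group C]
  (z : C), AT p z → ∀ c : Fin s → C,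
  ∃ (C0 : Type) (_ : Group C0) (ι : C →* C0) (x : Fin (s + 1) → C0) (y : Fin s → C0)
    (A At Au Aw : Subgroup C0) (ψt : A ≃* At) (ψu : A ≃* Au) (ψw : A ≃* Aw),
    Function.Injective ι ∧ AT p (ι z) ∧
    (ι z ∈ A ∧ ι z ∈ At ∧ ι z ∈ Au ∧ ι z ∈ Aw) ∧
    (∀ h : ι z ∈ A, (ψt ⟨ι z, h⟩ : C0) = ι z ∧ (ψu ⟨ι z, h⟩ : C0) = ι z ∧
      (ψw ⟨ι z, h⟩ : C0) = ι z) ∧
    (MZ (ι z) A ∧ MZ (ι z) At ∧ MZ (ι z) Au ∧ MZ (ι z) Aw) ∧
    (SZ (ι z) A At ∧ SZ (ι z) A Au ∧ SZ (ι z) A Aw ∧ SZ (ι z) At Au ∧ SZ (ι z) At Aw ∧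
      SZ (ι z) Au Aw) ∧
    (∀ i : Fin s, ∃ h : x i.castSucc ∈ A, (ψt ⟨x i.castSucc, h⟩ : C0) = y i ∧
      (ψu ⟨x i.castSucc, h⟩ : C0) = x i.succ * y i ∧
      (ψw ⟨x i.castSucc, h⟩ : C0) = ι (c i) * x i.castSucc * y i) ∧
    ∀ i j : Fin s, i ≠ j → x j.castSucc * (x i.castSucc)⁻¹ ∉ ι.range

/-- the words -/
def XW : ℕ → FreeGroup (Fin 4)
  | 0 => FreeGroup.of 0
  | n + 1 => FreeGroup.of 2 * XW n * (FreeGroup.of 2)⁻¹ *
      (FreeGroup.of 1 * XW n * (FreeGroup.of 1)⁻¹)⁻¹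

/-- the words -/
def TW (n : ℕ) : FreeGroup (Fin 4) :=
  FreeGroup.of 3 * XW n * (FreeGroup.of 3)⁻¹ * (FreeGroup.of 1 * XW n * (FreeGroup.of 1)⁻¹)⁻¹ *
    (XW n)⁻¹

/-- uniform embedding into groups generated by four elements -/
def EL (p : ℕ) : Prop := ∀ (s : ℕ) (C : Type) [Group C] (z : C), AT p z → ∀ c : Fin s → C,
  ∃ (C' : Type) (_ : Group C') (ι : C →* C') (b : Fin 4 → C'),
    Function.Injective ι ∧ AT p (ι z) ∧
    (∀ i : Fin s, FreeGroup.lift b (TW i) = ι (c i)) ∧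
    ∀ i j : Fin s, i ≠ j → FreeGroup.lift b (XW j) * (FreeGroup.lift b (XW i))⁻¹ ∉ ι.range

def ELStmt : Prop := ∃ p0 : ℕ, ∀ p : ℕ, p.Prime → p0 ≤ p → EL p

end Pool.Agent.TH37.SD
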