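import Pool.Agent.TH37.SD.Defs

/-!
# MP_41f637_al: the groups `E_C` and the word (statements, helper37)

`WR C` is the unrestricted wreath product of the additive group of `ℂ` and `C`. For a central
element `z` of `C` and a complex number `ζ` the elements `g` with `Tw z ζ g` form a subgroup
`E_C = M_C ⋊ C`, where `M_C` is the group of all functions `f : C → ℂ` with
`f (z c) = ζ f c`.
-/

set_option autoImplicit false

namespace Pool.Agent.TH37.SD

/-- the unrestricted wreath product of the additive group of `ℂ` and `C` -/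
abbrev WR (C : Type) [Group C] : Type := RegularWreathProduct (Multiplicative ℂ) C

/-- the twist condition -/
def Tw {C : Type} [Group C] (z : C) (ζ : ℂ) (g : WR C) : Prop :=
  ∀ x : C, Multiplicative.toAdd (g.left (z * x)) = ζ * Multiplicative.toAdd (g.left x)

/-- `w` is a law of all groups `E_C`, `C` in the class `AT p` -/
def Law (p : ℕ) (ζ : ℂ) {X : Type} (w : FreeGroup X) : Prop :=
  ∀ (C : Type) [Group C] (z : C), AT p z → ∀ e : X → WR C, (∀ i, Tw z ζ (e i)) →
    FreeGroup.lift e w = 1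

/-- the product of the conjugates of `m` by the powers of `y ^ p` -/
def nrm {G : Type} [Group G] (p : ℕ) (y m : G) : G :=
  ((List.range p).map fun i => (y ^ p) ^ i * m * ((y ^ p) ^ i)⁻¹).prod

/-- the value of the word -/
def wv {G : Type} [Group G] (p : ℕ) (y : Fin 5 → G) (x u : G) : G :=
  nrm p (y 4) (nrm p (y 3) (nrm p (y 2) (nrm p (y 1) (nrm p (y 0) (u ^ (p ^ 2)))))) * x ^ p *
    (nrm p (y 4) (nrm p (y 3) (nrm p (y 2) (nrm p (y 1) (nrm p (y 0) (u ^ (p ^ 2)))))))⁻¹ *
    (x ^ p)⁻¹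

/-- the word is trivial if `x` lies in the subgroup generated by the `y i` -/
def NoSolStmt : Prop := ∀ p : ℕ, p.Prime → 3 ≤ p → ∀ ζ : ℂ, IsPrimitiveRoot ζ p →
  ∀ (C : Type) [Group C] (z : C), AT p z → ∀ (y : Fin 5 → WR C) (x u : WR C),
  (∀ i, Tw z ζ (y i)) → Tw z ζ u → x ∈ Subgroup.closure (Set.range y) → wv p y x u = 1

/-- the word is not a law -/
def SolStmt : Prop := ∀ p : ℕ, p.Prime → 3 ≤ p → ∀ ζ : ℂ, IsPrimitiveRoot ζ p →
  ∃ (C : Type) (_ : Group C) (z : C), AT p z ∧ ∃ x u : WR C, Tw z ζ x ∧ Tw z ζ u ∧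
    wv p (fun _ => 1) x u ≠ 1

/-- the relatively free group of rank five discriminates the variety -/
def DiscStmt : Prop := ∀ p : ℕ, p.Prime → 3 ≤ p → ∀ ζ : ℂ, IsPrimitiveRoot ζ p → EL p →
  ∀ (s : ℕ) (ws : Finset (FreeGroup (Fin s))), (∀ w ∈ ws, ¬ Law p ζ w) →
  ∃ f : Fin s → FreeGroup (Fin 5), ∀ w ∈ ws, ¬ Law p ζ (FreeGroup.lift f w)

end Pool.Agent.TH37.SD
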